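import Pool.Agent.H37.FC.Main
import Pool.Agent.H37.FC.Symm

set_option autoImplicit false

namespace Pool.Agent.Results.MP_23e236_ag.CharPCounterexample

open Pool.Agent.H20 Pool.Agent.H66.Sym Pool.Agent.H37.FC

universe u

/-- **The `F`-conjecture is false over every algebraically closed field `k` of characteristic
`p > 0`.** For every `n ≥ (10⁸ p)³ + 1`:
(1) there is an integral divisor class (a line bundle) `∑ f({i}) ψ_i - ∑ f(I) δ_I` on `M̄_{0,n}`
which has positive degree on all `F`-curves (it is `F`-ample) and negative degree on a rational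
curve in a boundary stratum factor `M̄_{0,r}`;
(2) the `F`-conjecture for `M̄_{0,n}` over `k` fails;
(3) for `N = 2ⁿ - 1` there is an `S_N`-invariant, positive and subadditive `F`-nef class on
`M̄_{0,N}` which is not nef. -/
theorem result (p : ℕ) [Fact p.Prime] (k : Type u) [Field k] [IsAlgClosed k] [CharP k p] (n : ℕ)
    (hn : (p * 10 ^ 8) ^ 3 + 1 ≤ n) :
    (∃ f : Finset (Fin n) → ℤ, IsSymm (fun A => (f A : ℝ)) ∧ IsFAmple (fun A => (f A : ℝ)) ∧
      ∃ (r : ℕ) (π : Fin n → Fin r) (q : Fin r → RatFunc k × RatFunc k),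
        4 ≤ r ∧ Function.Surjective π ∧ IsCurveField k (RatFunc k) ∧ IsPoint q ∧
        deg k (fun A => (f A : ℝ)) π q < 0) ∧
    ¬ FConj k n ∧
    ∃ h : Finset (Fin (2 ^ n - 1)) → ℝ, IsSymm h ∧ IsInvariant h ∧ IsFNef h ∧
      (∀ A, A.Nonempty → Aᶜ.Nonempty → 0 < h A) ∧
      (∀ A B, A.Nonempty → B.Nonempty → Disjoint A B → h (A ∪ B) ≤ h A + h B) ∧
      ¬ IsNef k h := by
  obtain ⟨h1, f, h2, h3, r, π, q, h4, h5, h6, h7⟩ := main p k n hn
  exact ⟨⟨f, h2, h3, r, π, q, h4, h5, isCurveField_ratFunc k, h6, h7⟩, h1, symm_class k h1⟩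

end Pool.Agent.Results.MP_23e236_ag.CharPCounterexample
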