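import Pool.Agent.H41.SN.Fin2

set_option autoImplicit false

namespace Pool.Agent.Results.MP_23e236_ag.EightTypes

open Pool.Agent.H20 Pool.Agent.H20.MG Pool.Agent.H41.SN

universe u v

/-- In every characteristic, an `F`-nef divisor class of `M̄_{0,n}`, given by a function `f` on the
subsets of the set of marks, has nonnegative degree on every curve in a boundary stratum factor
`M̄_{0,m}` along which it has few types, after the subtraction of a function `cut w` with symmetric
weights `w` (these functions give the class zero). -/
theorem result {n m : ℕ} (f : Finset (Fin n) → ℝ) (hs : IsSymm f) (hF : IsFNef f)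
    {k : Type u} {K : Type v} [Field k] [IsAlgClosed k] [Field K] [Algebra k K]
    (hK : IsCurveField k K) (hm : 4 ≤ m) (π : Fin n → Fin m)
    (hπ : Function.Surjective π) (p : Fin m → K × K) (hp : IsPoint p)
    (w : Fin n → Fin n → ℝ) (hw : ∀ x y, w x y = w y x)
    (h : FewTypes (fun A => f A - cut w A) π) : 0 ≤ deg k f π p :=
  deg_nonneg_all hs hF hK hm hπ hp hw h

end Pool.Agent.Results.MP_23e236_ag.EightTypes
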