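import Pool.Agent.H66.SymMain

set_option autoImplicit false

namespace Pool.Agent.Results.MP_23e236_ag.SymmetricReduction

open Pool.Agent.H20 Pool.Agent.H66.Sym

universe u v

/-- **Reduction of the `F`-conjecture to symmetric classes.** Every `F`-nef class `f` on `M̄_{0,m}`
is the restriction of an `S_N`-invariant `F`-nef class `h` on `M̄_{0,N}`, `N = 2 ^ m - 1`, to the
boundary stratum factor with parts of sizes `1, 2, 4, …, 2 ^ (m - 1)`; moreover `h` is positive
and subadditive. Hence the symmetric `F`-conjecture for `M̄_{0,N}` implies the `F`-conjecture for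
`M̄_{0,n}`, `n ≤ m`, and the `F`-conjecture for all `n` is equivalent to the symmetric one for
infinitely many `N = 2 ^ m - 1`. -/
theorem result :
    (∀ (m : ℕ) (f : Finset (Fin m) → ℝ), IsSymm f → IsFNef f →
      ∃ (h : Finset (Fin (2 ^ m - 1)) → ℝ) (τ : Fin (2 ^ m - 1) → Fin m),
        IsSymm h ∧ IsInvariant h ∧ IsFNef h ∧
        (∀ A, A.Nonempty → Aᶜ.Nonempty → 0 < h A) ∧
        (∀ A B, A.Nonempty → B.Nonempty → Disjoint A B → h (A ∪ B) ≤ h A + h B) ∧
        Function.Surjective τ ∧ (∀ i, (fib τ {i}).card = 2 ^ (i : ℕ)) ∧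
        ∀ (k : Type u) (K : Type v) [Field k] [IsAlgClosed k] [Field K] [Algebra k K] (r : ℕ)
          (π : Fin m → Fin r) (p : Fin r → K × K), 3 ≤ r → IsCurveField k K → IsPoint p →
            deg k h (π ∘ τ) p = deg k f π p) ∧
    ∀ (k : Type u) [Field k] [IsAlgClosed k],
      (∀ m, SymFConj k (2 ^ m - 1) → ∀ n ≤ m, FConj k n) ∧
      ((∀ n, FConj k n) ↔ ∀ N, ∃ m ≥ N, SymFConj k (2 ^ m - 1)) :=
  ⟨fun _ f hs hF => extension f hs hF, fun k _ _ =>
    ⟨fun _ h _ hn => fconj_mono k hn (fconj_of_symFConj k h), fconj_iff k⟩⟩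

end Pool.Agent.Results.MP_23e236_ag.SymmetricReduction
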