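import Pool.Agent.H20.LS.All

set_option autoImplicit false

namespace Pool.Agent.Results.MP_23e236_ag.UniformBound

open Pool.Agent.H20 Pool.Agent.H20.CT Pool.Agent.H20.LS Pool.Agent.H20.MG

universe u v

/-- For all `n` and in every characteristic: if all the degrees of a divisor class `D` of
`M̄_{0,n}` on the `F`-curves lie between `a` and `b`, then, for every curve `C` in every boundary
stratum factor, `(a - q (b - a)) (K + Δ).C ≤ D.C ≤ (b + q (b - a)) (K + Δ).C` with `q = 14`. This
holds with `q = 1 / 7` if there are a set `X` of at most `44` special points and a set `G` of marks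
such that `D` is invariant under the permutations of `G` and the marks outside the parts of `X`
belong to `G` and are at most `(45 - |X|) (44 - |X|)` in number, or if among any `45` disjoint
unions of parts two have the same type. (`K + Δ` is the class of the constant function `1`.) -/
theorem result {n m : ℕ} (f : Finset (Fin n) → ℝ) (hs : IsSymm f) (a b : ℝ)
    (hF : FBetween a b f) {k : Type u} {K : Type v} [Field k] [IsAlgClosed k] [Field K]
    [Algebra k K] (hK : IsCurveField k K) (hm : 4 ≤ m) (π : Fin n → Fin m)
    (hπ : Function.Surjective π) (p : Fin m → K × K) (hp : IsPoint p) (q : ℝ)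
    (hq : q = 14 ∨ (q = 1 / 7 ∧ ((∃ (G : Finset (Fin n)) (X : Finset (Fin m)), SymOn f G ∧
      (∀ v, π v ∉ X → v ∈ G) ∧ X.card ≤ 44 ∧
      (Finset.univ.filter (fun v => π v ∉ X)).card ≤ (45 - X.card) * (44 - X.card)) ∨
      NoMany 44 f π))) :
    (a - q * (b - a)) * deg k (fun _ => (1 : ℝ)) π p ≤ deg k f π p ∧
      deg k f π p ≤ (b + q * (b - a)) * deg k (fun _ => (1 : ℝ)) π p :=
  bounds hs hF hK hm hπ hp hq

end Pool.Agent.Results.MP_23e236_ag.UniformBound
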